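import Mathlib
import Pool.Agent.Helper41.BallPot

set_option autoImplicit false

namespace Pool.Agent.Results.MP_88aa81_an.BallMinusSpherePart

open MeasureTheory Metric Set

/-- `M(x)`: the mean value of `y ↦ ‖x - y‖^(2-n)` over the unit sphere of `ℝⁿ` with respect to
the surface measure `volume.toSphere` (the average `⨍` divides by the total mass). -/
noncomputable def sphereMean (n : ℕ) (x : EuclideanSpace ℝ (Fin n)) : ℝ :=
  ⨍ y : sphere (0 : EuclideanSpace ℝ (Fin n)) 1, ‖x - (y : EuclideanSpace ℝ (Fin n))‖ ^ (2 - (n : ℝ))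
    ∂(volume : Measure (EuclideanSpace ℝ (Fin n))).toSphere

/-- the mean-value property: for every `x` outside `Ω` the mean of `y ↦ ‖x - y‖^(2-n)` over `Ω`
(Lebesgue measure) equals `M(x)`. -/
def HasMeanValueProperty (n : ℕ) (Ω : Set (EuclideanSpace ℝ (Fin n))) : Prop :=
  ∀ x, x ∉ Ω →
    ((volume : Measure (EuclideanSpace ℝ (Fin n))).real Ω)⁻¹ * ∫ y in Ω, ‖x - y‖ ^ (2 - (n : ℝ))
      = sphereMean n x

/-- annuli: `{x | r₁ < ‖x‖ < r₂}` for reals `r₁ < r₂` (negative `r₁` allowed, so that centred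
open balls count as annuli). -/
def IsAnnulus (n : ℕ) (Ω : Set (EuclideanSpace ℝ (Fin n))) : Prop :=
  ∃ r₁ r₂ : ℝ, r₁ < r₂ ∧ Ω = {x | r₁ < ‖x‖ ∧ ‖x‖ < r₂}

theorem sphereMean_inside {n : ℕ} (hn : 3 ≤ n) {x : EuclideanSpace ℝ (Fin n)} (hx : ‖x‖ < 1) :
    sphereMean n x = 1 := by
  have hn' : 3 ≤ Module.finrank ℝ (EuclideanSpace ℝ (Fin n)) := by simpa using hn
  have hnt : Nontrivial (EuclideanSpace ℝ (Fin n)) :=
    Module.nontrivial_of_finrank_pos (R := ℝ) (by omega)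
  have h := Helper41.integral_kernel_inside hn' hx
  have e : Helper41.ex (EuclideanSpace ℝ (Fin n)) = 2 - (n : ℝ) := by
    simp [Helper41.ex]
  rw [e] at h
  unfold sphereMean
  rw [average_eq, h, smul_eq_mul, inv_mul_cancel₀]
  rw [Helper41.sph_univ]
  have h1 : 0 < (volume : Measure (EuclideanSpace ℝ (Fin n))).real (ball 0 1) :=
    ENNReal.toReal_pos (measure_ball_pos _ _ one_pos).ne' measure_ball_lt_top.ne
  have h2 : (0 : ℝ) < Module.finrank ℝ (EuclideanSpace ℝ (Fin n)) := by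
    exact_mod_cast (by omega : 0 < Module.finrank ℝ (EuclideanSpace ℝ (Fin n)))
  positivity

theorem sphereMean_outside {n : ℕ} (hn : 3 ≤ n) {x : EuclideanSpace ℝ (Fin n)} (hx : 1 < ‖x‖) :
    sphereMean n x = ‖x‖ ^ (2 - (n : ℝ)) := by
  have hn' : 3 ≤ Module.finrank ℝ (EuclideanSpace ℝ (Fin n)) := by simpa using hn
  have hnt : Nontrivial (EuclideanSpace ℝ (Fin n)) :=
    Module.nontrivial_of_finrank_pos (R := ℝ) (by omega)
  have h := Helper41.integral_kernel_outside hn' hx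
  have e : Helper41.ex (EuclideanSpace ℝ (Fin n)) = 2 - (n : ℝ) := by
    simp [Helper41.ex]
  rw [e] at h
  unfold sphereMean
  rw [average_eq, h, smul_eq_mul, mul_comm (‖x‖ ^ (2 - (n : ℝ))), inv_mul_cancel_left₀]
  rw [Helper41.sph_univ]
  have h1 : 0 < (volume : Measure (EuclideanSpace ℝ (Fin n))).real (ball 0 1) :=
    ENNReal.toReal_pos (measure_ball_pos _ _ one_pos).ne' measure_ball_lt_top.ne
  have h2 : (0 : ℝ) < Module.finrank ℝ (EuclideanSpace ℝ (Fin n)) := by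
    exact_mod_cast (by omega : 0 < Module.finrank ℝ (EuclideanSpace ℝ (Fin n)))
  positivity

/-- normalised potential of a ball, outside -/
theorem ballMean_outer {n : ℕ} (hn : 3 ≤ n) {r : ℝ} (hr : 0 < r) {x : EuclideanSpace ℝ (Fin n)}
    (hx : r ≤ ‖x‖) :
    ((volume : Measure (EuclideanSpace ℝ (Fin n))).real (ball 0 r))⁻¹ *
      ∫ y in ball (0 : EuclideanSpace ℝ (Fin n)) r, ‖x - y‖ ^ (2 - (n : ℝ))
      = ‖x‖ ^ (2 - (n : ℝ)) := by
  have hn' : 3 ≤ Module.finrank ℝ (EuclideanSpace ℝ (Fin n)) := by simpa using hn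
  have h := Helper41.integral_ball_outer hn' hr.le hx
  have e : Helper41.ex (EuclideanSpace ℝ (Fin n)) = 2 - (n : ℝ) := by
    simp [Helper41.ex]
  rw [e] at h
  rw [h, Helper41.sph_univ, Helper41.volume_ball hn' hr.le]
  have h1 : 0 < (volume : Measure (EuclideanSpace ℝ (Fin n))).real (ball 0 1) :=
    ENNReal.toReal_pos (measure_ball_pos _ _ one_pos).ne' measure_ball_lt_top.ne
  have h2 : (0 : ℝ) < (n : ℝ) := by exact_mod_cast (by omega : 0 < n)
  rw [finrank_euclideanSpace_fin]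
  have h3 : (0 : ℝ) < r ^ n := by positivity
  field_simp

/-- normalised potential of a ball, inside -/
theorem ballMean_inner {n : ℕ} (hn : 3 ≤ n) {r : ℝ} (hr : 0 < r) {x : EuclideanSpace ℝ (Fin n)}
    (hx : ‖x‖ ≤ r) :
    ((volume : Measure (EuclideanSpace ℝ (Fin n))).real (ball 0 r))⁻¹ *
      ∫ y in ball (0 : EuclideanSpace ℝ (Fin n)) r, ‖x - y‖ ^ (2 - (n : ℝ))
      = (n * r ^ 2 - (n - 2) * ‖x‖ ^ 2) / (2 * r ^ n) := by
  have hn' : 3 ≤ Module.finrank ℝ (EuclideanSpace ℝ (Fin n)) := by simpa using hn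
  have h := Helper41.integral_ball_inner hn' hr.le hx
  have e : Helper41.ex (EuclideanSpace ℝ (Fin n)) = 2 - (n : ℝ) := by
    simp [Helper41.ex]
  rw [e] at h
  rw [h, Helper41.sph_univ, Helper41.volume_ball hn' hr.le]
  have h1 : 0 < (volume : Measure (EuclideanSpace ℝ (Fin n))).real (ball 0 1) :=
    ENNReal.toReal_pos (measure_ball_pos _ _ one_pos).ne' measure_ball_lt_top.ne
  have h2 : (0 : ℝ) < (n : ℝ) := by exact_mod_cast (by omega : 0 < n)
  rw [finrank_euclideanSpace_fin]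
  have h3 : (0 : ℝ) < r ^ n := by positivity
  field_simp
  ring

/-- spheres have measure zero, hence so do their subsets -/
theorem volume_sphere_subset {n : ℕ} (hn : 3 ≤ n) {s : ℝ} {K : Set (EuclideanSpace ℝ (Fin n))}
    (hK : K ⊆ sphere 0 s) : (volume : Measure (EuclideanSpace ℝ (Fin n))) K = 0 := by
  have hnt : Nontrivial (EuclideanSpace ℝ (Fin n)) :=
    Module.nontrivial_of_finrank_pos (R := ℝ) (by rw [finrank_euclideanSpace_fin]; omega)
  exact measure_mono_null hK (Measure.addHaar_sphere _ _ _)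

/-- the family of examples -/
theorem family {n : ℕ} (hn : 3 ≤ n) {r s : ℝ} (hr : 1 < r) (hs0 : 0 < s) (hs1 : s < 1)
    (hs : (n - 2 : ℝ) * s ^ 2 = n * r ^ 2 - 2 * r ^ n) {K : Set (EuclideanSpace ℝ (Fin n))}
    (hKc : IsClosed K) (hK : K ⊆ sphere 0 s) (hKn : K.Nonempty) :
    IsOpen (ball 0 r \ K) ∧ (ball 0 r \ K).Nonempty ∧
      (volume : Measure (EuclideanSpace ℝ (Fin n))) (ball 0 r \ K) < ⊤ ∧
      HasMeanValueProperty n (ball 0 r \ K) ∧ ¬ IsAnnulus n (ball 0 r \ K) := by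
  have hr0 : 0 < r := by linarith
  have hnt : Nontrivial (EuclideanSpace ℝ (Fin n)) :=
    Module.nontrivial_of_finrank_pos (R := ℝ) (by rw [finrank_euclideanSpace_fin]; omega)
  have hK0 := volume_sphere_subset hn hK
  have hzero : (0 : EuclideanSpace ℝ (Fin n)) ∉ K := by
    intro h
    have := hK h
    rw [mem_sphere_iff_norm, sub_zero, norm_zero] at this
    linarith
  refine ⟨isOpen_ball.sdiff hKc, ⟨0, mem_ball_self hr0, hzero⟩, ?_, ?_, ?_⟩
  · exact lt_of_le_of_lt (measure_mono sdiff_subset) measure_ball_lt_top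
  · intro x hx
    have hae : (ball 0 r \ K : Set (EuclideanSpace ℝ (Fin n))) =ᵐ[volume] ball 0 r :=
      sdiff_null_ae_eq_self hK0
    have h1 : (volume : Measure (EuclideanSpace ℝ (Fin n))).real (ball 0 r \ K)
        = (volume : Measure (EuclideanSpace ℝ (Fin n))).real (ball 0 r) := by
      rw [Measure.real, Measure.real, measure_congr hae]
    rw [h1, setIntegral_congr_set hae]
    by_cases hxb : x ∈ ball (0 : EuclideanSpace ℝ (Fin n)) r
    · have hxK : x ∈ K := by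
        by_contra h
        exact hx ⟨hxb, h⟩
      have hxs : ‖x‖ = s := by
        have := hK hxK
        rwa [mem_sphere_iff_norm, sub_zero] at this
      rw [ballMean_inner hn hr0 (by rw [hxs]; linarith), sphereMean_inside hn (by rw [hxs]; exact hs1),
        hxs, hs]
      have : (0 : ℝ) < r ^ n := by positivity
      field_simp
      ring
    · have hxr : r ≤ ‖x‖ := by simpa using hxb
      rw [ballMean_outer hn hr0 hxr, sphereMean_outside hn (by linarith)]
  · rintro ⟨r₁, r₂, h12, hΩ⟩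
    obtain ⟨p, hp⟩ := hKn
    have hps : ‖p‖ = s := by
      have := hK hp
      rwa [mem_sphere_iff_norm, sub_zero] at this
    have h0 : (0 : EuclideanSpace ℝ (Fin n)) ∈ {x : EuclideanSpace ℝ (Fin n) | r₁ < ‖x‖ ∧ ‖x‖ < r₂} := by
      rw [← hΩ]; exact ⟨mem_ball_self hr0, hzero⟩
    have hr1 : r₁ < 0 := by simpa using h0.1
    -- a point of norm 1 belongs to the set
    have hq : ((s⁻¹ : ℝ) • p) ∈ {x : EuclideanSpace ℝ (Fin n) | r₁ < ‖x‖ ∧ ‖x‖ < r₂} := by
      have hqn : ‖(s⁻¹ : ℝ) • p‖ = 1 := by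
        rw [norm_smul, hps, norm_inv, Real.norm_of_nonneg hs0.le, inv_mul_cancel₀ hs0.ne']
      rw [← hΩ]
      refine ⟨by simpa [hqn] using hr, fun h => ?_⟩
      have := hK h
      rw [mem_sphere_iff_norm, sub_zero, hqn] at this
      linarith
    have hqn : ‖(s⁻¹ : ℝ) • p‖ = 1 := by
      rw [norm_smul, hps, norm_inv, Real.norm_of_nonneg hs0.le, inv_mul_cancel₀ hs0.ne']
    have h2 : 1 < r₂ := by
      have := hq.2
      rwa [hqn] at this
    have hpm : p ∈ {x : EuclideanSpace ℝ (Fin n) | r₁ < ‖x‖ ∧ ‖x‖ < r₂} := by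
      refine ⟨by linarith [norm_nonneg p], ?_⟩
      rw [hps]; linarith
    rw [← hΩ] at hpm
    exact hpm.2 hp

/-- For every dimension `n ≥ 3` there is a nonempty open set of finite measure with the mean-value
property (required at every point of its complement) which is not an annulus. -/
theorem result : ∀ n : ℕ, 3 ≤ n → ∃ Ω : Set (EuclideanSpace ℝ (Fin n)),
    IsOpen Ω ∧ Ω.Nonempty ∧ (volume : Measure (EuclideanSpace ℝ (Fin n))) Ω < ⊤ ∧
      HasMeanValueProperty n Ω ∧ ¬ IsAnnulus n Ω := by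
  intro n hn
  have hnR : (3 : ℝ) ≤ n := by exact_mod_cast hn
  have hnt : Nontrivial (EuclideanSpace ℝ (Fin n)) :=
    Module.nontrivial_of_finrank_pos (R := ℝ) (by rw [finrank_euclideanSpace_fin]; omega)
  -- choose r
  have hcont : Continuous fun t : ℝ => n * t ^ 2 - 2 * t ^ n := by fun_prop
  have h1 : (0 : ℝ) < n * 1 ^ 2 - 2 * 1 ^ n := by rw [one_pow, one_pow]; linarith
  obtain ⟨r, hr1, hrpos⟩ : ∃ r : ℝ, 1 < r ∧ 0 < n * r ^ 2 - 2 * r ^ n := by
    have h2 : ∀ᶠ t : ℝ in nhds (1 : ℝ), 0 < n * t ^ 2 - 2 * t ^ n :=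
      (hcont.tendsto 1).eventually (lt_mem_nhds h1)
    have h3 : ∀ᶠ t : ℝ in nhdsWithin (1 : ℝ) (Ioi 1), 0 < n * t ^ 2 - 2 * t ^ n :=
      h2.filter_mono nhdsWithin_le_nhds
    have h4 : ∀ᶠ t : ℝ in nhdsWithin (1 : ℝ) (Ioi 1), 1 < t := eventually_mem_nhdsWithin
    obtain ⟨r, hr⟩ := (h4.and h3).exists
    exact ⟨r, hr⟩
  -- the value is below n - 2
  have hlt : n * r ^ 2 - 2 * r ^ n < (n : ℝ) - 2 := by
    -- Bernoulli: r^n = (r^2)^(n/2) ≥ 1 + n/2 (r^2 - 1), strictly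
    have hb : 1 + ((n : ℝ) / 2) * (r ^ 2 - 1) < (1 + (r ^ 2 - 1)) ^ ((n : ℝ) / 2) := by
      apply one_add_mul_self_lt_rpow_one_add
      · nlinarith
      · nlinarith
      · linarith
    have he : (1 + (r ^ 2 - 1)) ^ ((n : ℝ) / 2) = r ^ n := by
      have : (1 + (r ^ 2 - 1)) = r ^ (2 : ℝ) := by
        rw [Real.rpow_two]; ring
      rw [this, ← Real.rpow_mul (by linarith), ← Real.rpow_natCast]
      congr 1
      ring
    rw [he] at hb
    linarith
  set s : ℝ := Real.sqrt ((n * r ^ 2 - 2 * r ^ n) / (n - 2)) with hs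
  have hn2 : (0 : ℝ) < (n : ℝ) - 2 := by linarith
  have hs0 : 0 < s := Real.sqrt_pos.mpr (by positivity)
  have hs2 : s ^ 2 = (n * r ^ 2 - 2 * r ^ n) / (n - 2) := Real.sq_sqrt (by positivity)
  have hs1 : s < 1 := by
    rw [hs, Real.sqrt_lt' one_pos, one_pow, div_lt_one hn2]
    exact hlt
  obtain ⟨e, he⟩ : ∃ e : EuclideanSpace ℝ (Fin n), ‖e‖ = s := exists_norm_eq _ hs0.le
  exact ⟨ball 0 r \ {e}, family hn hr1 hs0 hs1 (by rw [hs2]; field_simp) isClosed_singleton
    (by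
      rw [singleton_subset_iff, mem_sphere_iff_norm, sub_zero]
      exact he) (singleton_nonempty e)⟩

end Pool.Agent.Results.MP_88aa81_an.BallMinusSpherePart
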